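import Pool.Agent.W978.QO.Stm

/-!
Project QO (problem MP_1acd66_nt), part SL: primitive vectors in a tube, counted by slices.
-/

set_option autoImplicit false

namespace Pool.Agent.W490.QO

open Pool.Agent.W978.QN Finset

theorem card_real {α β : Type*} [DecidableEq β] (s : Finset α) (f : α → β) (B : ℝ)
    (h : ∀ b ∈ s.image f, ((s.filter (fun x => f x = b)).card : ℝ) ≤ B) :
    (s.card : ℝ) ≤ B * (s.image f).card := by
  rw [card_eq_sum_card_image f s]
  push_cast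
  refine (sum_le_sum h).trans ?_
  rw [sum_const, nsmul_eq_mul, mul_comm]

theorem res_card (S : Finset ℤ) (g : ℕ) (hg : 1 ≤ g) (D : ℝ) (hD : 0 ≤ D)
    (h : ∀ x ∈ S, ∀ y ∈ S, ((|x - y| : ℤ) : ℝ) ≤ D ∧ (g : ℤ) ∣ x - y) :
    (S.card : ℝ) ≤ 1 + D / g := by
  have hg0 : (0 : ℝ) < g := by exact_mod_cast hg
  have hgz : (0 : ℤ) < g := by exact_mod_cast hg
  rcases S.eq_empty_or_nonempty with rfl | hne
  · simp
    positivity
  set x0 := S.min' hne with hx0
  have hx0m : x0 ∈ S := S.min'_mem hne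
  have hle : ∀ x ∈ S, x0 ≤ x := fun x hx => S.min'_le x hx
  have hcard : S.card ≤ (range (⌊D / g⌋₊ + 1)).card := by
    refine card_le_card_of_injOn (fun x => ((x - x0) / g).toNat) ?_ ?_
    · intro x hx
      have hx' : x ∈ S := hx
      obtain ⟨h1, m, hm⟩ := h x hx' x0 hx0m
      have h0 := hle x hx'
      have hm0 : 0 ≤ m := by
        by_contra hneg
        push Not at hneg
        nlinarith
      simp only [coe_range, Set.mem_Iio]
      rw [hm, Int.mul_ediv_cancel_left _ hgz.ne', Nat.lt_succ_iff]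
      apply Nat.le_floor
      have h2 : ((m.toNat : ℕ) : ℝ) = (m : ℝ) := by
        have : ((m.toNat : ℕ) : ℤ) = m := Int.toNat_of_nonneg hm0
        exact_mod_cast this
      rw [h2, le_div_iff₀ hg0]
      rw [abs_of_nonneg (by linarith), hm] at h1
      push_cast at h1
      linarith
    · intro x hx y hy hxy
      have hx' : x ∈ S := hx
      have hy' : y ∈ S := hy
      obtain ⟨_, m, hm⟩ := h x hx' x0 hx0m
      obtain ⟨_, m', hm'⟩ := h y hy' x0 hx0m
      have h0 := hle x hx'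
      have h0' := hle y hy'
      have hm0 : 0 ≤ m := by
        by_contra hneg
        push Not at hneg
        nlinarith
      have hm0' : 0 ≤ m' := by
        by_contra hneg
        push Not at hneg
        nlinarith
      simp only at hxy
      rw [hm, hm', Int.mul_ediv_cancel_left _ hgz.ne', Int.mul_ediv_cancel_left _ hgz.ne'] at hxy
      have : m = m' := by
        have := congrArg (fun n : ℕ => (n : ℤ)) hxy
        simpa [Int.toNat_of_nonneg hm0, Int.toNat_of_nonneg hm0'] using this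
      rw [this] at hm
      linarith
  rw [card_range] at hcard
  have h3 : ((⌊D / g⌋₊ : ℕ) : ℝ) ≤ D / g := Nat.floor_le (by positivity)
  have h4 : (S.card : ℝ) ≤ (⌊D / g⌋₊ : ℝ) + 1 := by exact_mod_cast hcard
  linarith

theorem nm_le_iff (v : Fin 3 → ℤ) (X : ℤ) (h : nm v ≤ X) (i : Fin 3) : |v i| ≤ X := by
  unfold nm at h
  have h0 := (le_max_left (max |v 0| |v 1|) |v 2|).trans h
  have h2 := (le_max_right (max |v 0| |v 1|) |v 2|).trans h
  have h00 := (le_max_left |v 0| |v 1|).trans h0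
  have h01 := (le_max_right |v 0| |v 1|).trans h0
  fin_cases i
  · exact h00
  · exact h01
  · exact h2

/-- reduction of the divisor -/
theorem red (g K : ℕ) (hg : 1 ≤ g) (z : ℤ) (h : (g : ℤ) ∣ K * z) :
    ((g / Nat.gcd g K : ℕ) : ℤ) ∣ z := by
  have hd : 0 < Nat.gcd g K := Nat.gcd_pos_of_pos_left _ hg
  have h1 : Nat.Coprime (g / Nat.gcd g K) (K / Nat.gcd g K) := Nat.coprime_div_gcd_div_gcd hd
  have e1 : (g : ℤ) = (Nat.gcd g K : ℤ) * ((g / Nat.gcd g K : ℕ) : ℤ) := by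
    exact_mod_cast (Nat.mul_div_cancel' (Nat.gcd_dvd_left g K)).symm
  have e2 : (K : ℤ) = (Nat.gcd g K : ℤ) * ((K / Nat.gcd g K : ℕ) : ℤ) := by
    exact_mod_cast (Nat.mul_div_cancel' (Nat.gcd_dvd_right g K)).symm
  have h2 : (Nat.gcd g K : ℤ) * ((g / Nat.gcd g K : ℕ) : ℤ) ∣
      (Nat.gcd g K : ℤ) * (((K / Nat.gcd g K : ℕ) : ℤ) * z) := by
    rw [← e1, ← mul_assoc, ← e2]
    exact h
  have h3 := (mul_dvd_mul_iff_left (by exact_mod_cast hd.ne' : (Nat.gcd g K : ℤ) ≠ 0)).mp h2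
  have h4 : IsCoprime ((g / Nat.gcd g K : ℕ) : ℤ) ((K / Nat.gcd g K : ℕ) : ℤ) :=
    Nat.isCoprime_iff_coprime.mpr h1
  exact h4.dvd_of_dvd_mul_left h3

theorem cong (u q0 q : Fin 3 → ℤ) (hu : ∑ i, u i * q0 i = 1) (G : ℤ)
    (h : ∀ i, G ∣ cp q0 q i) (i : Fin 3) : G ∣ q i - (∑ j, u j * q j) * q0 i := by
  have h0 := h 0
  have h1 := h 1
  have h2 := h 2
  simp only [cp, Matrix.cons_val_zero, Matrix.cons_val_one, Matrix.cons_val] at h0 h1 h2
  rw [Fin.sum_univ_three] at hu ⊢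
  fin_cases i
  · have : q 0 - (u 0 * q 0 + u 1 * q 1 + u 2 * q 2) * q0 0 =
        -(u 1) * (q0 0 * q 1 - q0 1 * q 0) + u 2 * (q0 2 * q 0 - q0 0 * q 2) := by
      linear_combination (-(q 0)) * hu
    show G ∣ q 0 - (u 0 * q 0 + u 1 * q 1 + u 2 * q 2) * q0 0
    rw [this]
    exact dvd_add (h2.mul_left _) (h1.mul_left _)
  · have : q 1 - (u 0 * q 0 + u 1 * q 1 + u 2 * q 2) * q0 1 =
        u 0 * (q0 0 * q 1 - q0 1 * q 0) + -(u 2) * (q0 1 * q 2 - q0 2 * q 1) := by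
      linear_combination (-(q 1)) * hu
    show G ∣ q 1 - (u 0 * q 0 + u 1 * q 1 + u 2 * q 2) * q0 1
    rw [this]
    exact dvd_add (h2.mul_left _) (h0.mul_left _)
  · have : q 2 - (u 0 * q 0 + u 1 * q 1 + u 2 * q 2) * q0 2 =
        -(u 0) * (q0 2 * q 0 - q0 0 * q 2) + u 1 * (q0 1 * q 2 - q0 2 * q 1) := by
      linear_combination (-(q 2)) * hu
    show G ∣ q 2 - (u 0 * q 0 + u 1 * q 1 + u 2 * q 2) * q0 2
    rw [this]
    exact dvd_add (h1.mul_left _) (h0.mul_left _)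

theorem third (j j' : Fin 3) (h : j ≠ j') :
    ∃ e : Fin 3, e ≠ j ∧ e ≠ j' ∧ ∀ i : Fin 3, i = j ∨ i = j' ∨ i = e := by
  revert j j'
  decide

theorem cramer (M : Fin 3 → Fin 3 → ℤ) (A X₁ Y : ℕ) (c : ℝ) (hc : 0 < c) (h1 : 1 ≤ X₁)
    (hM : ∀ k j, |M k j| ≤ A * X₁) (k k' j j' e : Fin 3) (hjj : j ≠ j') (he : e ≠ j)
    (he' : e ≠ j') (hall : ∀ i : Fin 3, i = j ∨ i = j' ∨ i = e)
    (hm : c * (X₁ : ℝ) ^ 2 ≤ |((mnr M k k' j j' : ℤ) : ℝ)|)
    (q q' : Fin 3 → ℤ) (hq : ∀ k, |wv M q k| ≤ Y) (hq' : ∀ k, |wv M q' k| ≤ Y)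
    (hz : q e = q' e) :
    ((|q j - q' j| : ℤ) : ℝ) ≤ 4 * A * Y / (c * X₁) ∧
      ((|q j' - q' j'| : ℤ) : ℝ) ≤ 4 * A * Y / (c * X₁) := by
  have hX : (0 : ℝ) < X₁ := by exact_mod_cast h1
  have huniv : (univ : Finset (Fin 3)) = {j, j', e} := by
    ext i
    simp only [mem_univ, mem_insert, mem_singleton, true_iff]
    exact hall i
  have hw : ∀ k, wv M q k - wv M q' k = M k j * (q j - q' j) + M k j' * (q j' - q' j') := by
    intro k
    have hs : ∀ v : Fin 3 → ℤ, wv M v k = M k j * v j + (M k j' * v j' + M k e * v e) := by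
      intro v
      unfold wv
      rw [huniv, sum_insert, sum_insert, sum_singleton]
      · simp only [mem_singleton]
        exact he'.symm
      · simp only [mem_insert, mem_singleton, not_or]
        exact ⟨hjj, he.symm⟩
    rw [hs q, hs q', hz]
    ring
  have hwb : ∀ k, |wv M q k - wv M q' k| ≤ 2 * (Y : ℤ) := by
    intro k
    have := abs_sub (wv M q k) (wv M q' k)
    have h2 := hq k
    have h3 := hq' k
    linarith
  have e1 : mnr M k k' j j' * (q j - q' j) =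
      M k' j' * (wv M q k - wv M q' k) - M k j' * (wv M q k' - wv M q' k') := by
    rw [hw k, hw k']
    unfold mnr
    ring
  have e2 : mnr M k k' j j' * (q j' - q' j') =
      M k j * (wv M q k' - wv M q' k') - M k' j * (wv M q k - wv M q' k) := by
    rw [hw k, hw k']
    unfold mnr
    ring
  have hAX : (0 : ℤ) ≤ A * X₁ := by positivity
  have hY0 : (0 : ℤ) ≤ Y := by positivity
  have bnd : ∀ (a b x y : ℤ), |a| ≤ A * X₁ → |b| ≤ A * X₁ → |x| ≤ 2 * (Y : ℤ) →
      |y| ≤ 2 * (Y : ℤ) → |a * x - b * y| ≤ 4 * A * X₁ * Y := by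
    intro a b x y ha hb hx hy
    have t1 : |a * x| ≤ (A * X₁) * (2 * Y) := by
      rw [abs_mul]
      exact mul_le_mul ha hx (abs_nonneg _) hAX
    have t2 : |b * y| ≤ (A * X₁) * (2 * Y) := by
      rw [abs_mul]
      exact mul_le_mul hb hy (abs_nonneg _) hAX
    have t3 := abs_sub (a * x) (b * y)
    linarith
  have b1 := bnd _ _ _ _ (hM k' j') (hM k j') (hwb k) (hwb k')
  have b2 := bnd _ _ _ _ (hM k j) (hM k' j) (hwb k') (hwb k)
  rw [← e1, abs_mul] at b1
  rw [← e2, abs_mul] at b2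
  have fin : ∀ d : ℤ, |mnr M k k' j j'| * |d| ≤ 4 * A * X₁ * Y →
      ((|d| : ℤ) : ℝ) ≤ 4 * A * Y / (c * X₁) := by
    intro d hd
    have hd' : |((mnr M k k' j j' : ℤ) : ℝ)| * ((|d| : ℤ) : ℝ) ≤ 4 * A * X₁ * Y := by
      have : ((|mnr M k k' j j'| * |d| : ℤ) : ℝ) ≤ ((4 * A * X₁ * Y : ℤ) : ℝ) := by
        exact_mod_cast hd
      push_cast at this ⊢
      exact this
    have hd0 : (0 : ℝ) ≤ ((|d| : ℤ) : ℝ) := by exact_mod_cast abs_nonneg d
    have h5 : c * (X₁ : ℝ) ^ 2 * ((|d| : ℤ) : ℝ) ≤ 4 * A * X₁ * Y :=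
      (mul_le_mul_of_nonneg_right hm hd0).trans hd'
    rw [le_div_iff₀ (by positivity)]
    have h6 : (((|d| : ℤ) : ℝ) * (c * X₁)) * X₁ ≤ (4 * A * Y) * X₁ := by
      calc (((|d| : ℤ) : ℝ) * (c * X₁)) * X₁ = c * (X₁ : ℝ) ^ 2 * ((|d| : ℤ) : ℝ) := by ring
        _ ≤ 4 * A * X₁ * Y := h5
        _ = (4 * A * Y) * X₁ := by ring
    exact le_of_mul_le_mul_right h6 hX
  exact ⟨fin _ b1, fin _ b2⟩

theorem core (A K : ℕ) (c : ℝ) (hK : 1 ≤ K) (hc : 0 < c)
    (M : Fin 3 → Fin 3 → ℤ) (X₁ X₂ Y g : ℕ) (h1 : 1 ≤ X₁) (hg : 1 ≤ g)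
    (hM : ∀ k j, |M k j| ≤ A * X₁)
    (hmn : ∃ k k' j j', c * (X₁ : ℝ) ^ 2 ≤ |((mnr M k k' j j' : ℤ) : ℝ)|)
    (Q : Finset (Fin 3 → ℤ)) (hQ : ∀ q ∈ Q, Prim q ∧ nm q ≤ X₂ ∧ ∀ k, |wv M q k| ≤ Y)
    (hd : ∀ q ∈ Q, ∀ q' ∈ Q, ∀ i, (g : ℤ) ∣ K * cp q q' i) :
    (Q.card : ℝ) ≤ (2 * X₂ + g) * (1 + 4 * A * K * Y / (c * X₁ * g)) ^ 2 := by
  classical
  have hX : (0 : ℝ) < X₁ := by exact_mod_cast h1
  have hg0 : (0 : ℝ) < g := by exact_mod_cast hg
  have hK0 : (0 : ℝ) < K := by exact_mod_cast hK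
  rcases Q.eq_empty_or_nonempty with rfl | ⟨q0, hq0⟩
  · simp
    positivity
  obtain ⟨k, k', j, j', hm⟩ := hmn
  have hjj : j ≠ j' := by
    rintro rfl
    have : mnr M k k' j j = 0 := by unfold mnr; ring
    rw [this] at hm
    simp only [Int.cast_zero, abs_zero] at hm
    have : 0 < c * (X₁ : ℝ) ^ 2 := by positivity
    linarith
  obtain ⟨e, he, he', hall⟩ := third j j' hjj
  obtain ⟨u, hu⟩ := (hQ q0 hq0).1
  set G : ℕ := g / Nat.gcd g K with hG
  have hgcd : 0 < Nat.gcd g K := Nat.gcd_pos_of_pos_left _ hg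
  have hG1 : 1 ≤ G := Nat.div_pos (Nat.le_of_dvd hg (Nat.gcd_dvd_left g K)) hgcd
  have hGg : G ≤ g := Nat.div_le_self _ _
  have hG0 : (0 : ℝ) < G := by exact_mod_cast hG1
  have hGK : (g : ℝ) ≤ G * K := by
    have h2 : g = G * Nat.gcd g K := (Nat.div_mul_cancel (Nat.gcd_dvd_left g K)).symm
    have h3 : Nat.gcd g K ≤ K := Nat.le_of_dvd hK (Nat.gcd_dvd_right g K)
    have h4 : g ≤ G * K := by
      calc g = G * Nat.gcd g K := h2
        _ ≤ G * K := Nat.mul_le_mul_left _ h3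
    exact_mod_cast h4
  set D : ℝ := 4 * A * Y / (c * X₁) with hD
  have hD0 : 0 ≤ D := by positivity
  set f : (Fin 3 → ℤ) → ℤ := fun q => (∑ i, u i * q i) % (G : ℤ) with hf
  have hGz : (0 : ℤ) < G := by exact_mod_cast hG1
  have himg : ((Q.image f).card : ℝ) ≤ G := by
    have hsub : Q.image f ⊆ Ico (0 : ℤ) G := by
      intro x hx
      obtain ⟨q, _, rfl⟩ := mem_image.mp hx
      exact mem_Ico.mpr ⟨Int.emod_nonneg _ hGz.ne', Int.emod_lt_of_pos _ hGz⟩
    have := card_le_card hsub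
    rw [Int.card_Ico, sub_zero, Int.toNat_natCast] at this
    exact_mod_cast this
  have hfib : ∀ b ∈ Q.image f, ((Q.filter (fun q => f q = b)).card : ℝ) ≤
      (1 + D / G) ^ 2 * (1 + 2 * X₂ / G) := by
    intro b _
    set Qb := Q.filter (fun q => f q = b) with hQb
    have hcong : ∀ q ∈ Qb, ∀ q' ∈ Qb, ∀ i, (G : ℤ) ∣ q i - q' i := by
      intro q hq q' hq' i
      rw [hQb, mem_filter] at hq hq'
      have c1 := cong u q0 q hu G (fun i => red g K hg _ (hd q0 hq0 q hq.1 i)) i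
      have c2 := cong u q0 q' hu G (fun i => red g K hg _ (hd q0 hq0 q' hq'.1 i)) i
      have c3 : (G : ℤ) ∣ (∑ j, u j * q j) - (∑ j, u j * q' j) := by
        have : (∑ j, u j * q' j) ≡ (∑ j, u j * q j) [ZMOD G] := by
          show _ % _ = _ % _
          have h5 : f q' = f q := hq'.2.trans hq.2.symm
          exact h5
        exact this.dvd
      have e3 : q i - q' i = (q i - (∑ j, u j * q j) * q0 i) - (q' i - (∑ j, u j * q' j) * q0 i) +
          ((∑ j, u j * q j) - (∑ j, u j * q' j)) * q0 i := by ring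
      rw [e3]
      exact dvd_add (dvd_sub c1 c2) (c3.mul_right _)
    have hstep := card_real Qb (fun q => q e) ((1 + D / G) ^ 2) (by
      intro z _
      set F := Qb.filter (fun q => q e = z) with hF
      have hmemF : ∀ q ∈ F, q ∈ Qb ∧ q ∈ Q ∧ q e = z := by
        intro q hq
        rw [hF, mem_filter] at hq
        have := hq.1
        rw [hQb, mem_filter] at this
        exact ⟨hq.1, this.1, hq.2⟩
      have hcr : ∀ q ∈ F, ∀ q' ∈ F, ((|q j - q' j| : ℤ) : ℝ) ≤ D ∧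
          ((|q j' - q' j'| : ℤ) : ℝ) ≤ D := by
        intro q hq q' hq'
        obtain ⟨_, a2, a3⟩ := hmemF q hq
        obtain ⟨_, b2, b3⟩ := hmemF q' hq'
        exact cramer M A X₁ Y c hc h1 hM k k' j j' e hjj he he' hall hm q q'
          (hQ q a2).2.2 (hQ q' b2).2.2 (a3.trans b3.symm)
      have i1 : ((F.image (fun q => q j)).card : ℝ) ≤ 1 + D / G := by
        refine res_card _ G hG1 D hD0 ?_
        intro x hx y hy
        obtain ⟨q, hq, rfl⟩ := mem_image.mp hx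
        obtain ⟨q', hq', rfl⟩ := mem_image.mp hy
        exact ⟨(hcr q hq q' hq').1, hcong q (hmemF q hq).1 q' (hmemF q' hq').1 j⟩
      have i2 : ((F.image (fun q => q j')).card : ℝ) ≤ 1 + D / G := by
        refine res_card _ G hG1 D hD0 ?_
        intro x hx y hy
        obtain ⟨q, hq, rfl⟩ := mem_image.mp hx
        obtain ⟨q', hq', rfl⟩ := mem_image.mp hy
        exact ⟨(hcr q hq q' hq').2, hcong q (hmemF q hq).1 q' (hmemF q' hq').1 j'⟩
      have i3 : F.card ≤ ((F.image (fun q => q j)) ×ˢ (F.image (fun q => q j'))).card := by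
        refine card_le_card_of_injOn (fun q => (q j, q j')) ?_ ?_
        · intro q hq
          have hq' : q ∈ F := hq
          simp only [coe_product, coe_image, Set.mem_prod, Set.mem_image]
          exact ⟨⟨q, hq', rfl⟩, ⟨q, hq', rfl⟩⟩
        · intro q hq q' hq' hqq
          have hq1 : q ∈ F := hq
          have hq2 : q' ∈ F := hq'
          simp only [Prod.mk.injEq] at hqq
          funext i
          rcases hall i with rfl | rfl | rfl
          · exact hqq.1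
          · exact hqq.2
          · exact (hmemF q hq1).2.2.trans (hmemF q' hq2).2.2.symm
      rw [card_product] at i3
      have i4 : (F.card : ℝ) ≤ ((F.image (fun q => q j)).card : ℝ) *
          ((F.image (fun q => q j')).card : ℝ) := by exact_mod_cast i3
      have hDG : 0 ≤ 1 + D / G := by positivity
      calc (F.card : ℝ) ≤ _ := i4
        _ ≤ (1 + D / G) * (1 + D / G) := mul_le_mul i1 i2 (by positivity) hDG
        _ = (1 + D / G) ^ 2 := by ring)
    have hz : ((Qb.image (fun q => q e)).card : ℝ) ≤ 1 + 2 * X₂ / G := by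
      refine res_card _ G hG1 (2 * X₂) (by positivity) ?_
      intro x hx y hy
      obtain ⟨q, hq, rfl⟩ := mem_image.mp hx
      obtain ⟨q', hq', rfl⟩ := mem_image.mp hy
      refine ⟨?_, hcong q hq q' hq' e⟩
      rw [hQb, mem_filter] at hq hq'
      have t1 := nm_le_iff q X₂ (hQ q hq.1).2.1 e
      have t2 := nm_le_iff q' X₂ (hQ q' hq'.1).2.1 e
      have t3 := abs_sub (q e) (q' e)
      have t4 : |q e - q' e| ≤ 2 * (X₂ : ℤ) := by linarith
      exact_mod_cast t4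
    refine hstep.trans ?_
    exact mul_le_mul_of_nonneg_left hz (by positivity)
  have htot := card_real Q f _ hfib
  have hfin : (1 + D / G) ^ 2 * (1 + 2 * X₂ / G) * ((Q.image f).card : ℝ) ≤
      (1 + D / G) ^ 2 * (1 + 2 * X₂ / G) * G :=
    mul_le_mul_of_nonneg_left himg (by positivity)
  have e5 : (1 + D / G) ^ 2 * (1 + 2 * X₂ / G) * G = (G + 2 * X₂) * (1 + D / G) ^ 2 := by
    field_simp
  have hDG : D / G ≤ 4 * A * K * Y / (c * X₁ * g) := by
    rw [div_le_div_iff₀ hG0 (by positivity), hD, div_mul_eq_mul_div, div_le_iff₀ (by positivity)]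
    have h7 : (0 : ℝ) ≤ 4 * A * Y * (c * X₁) * (c * X₁) := by positivity
    have h8 : 4 * (A : ℝ) * Y * (c * X₁ * g) = (4 * A * Y * (c * X₁)) * g := by ring
    have h9 : 4 * (A : ℝ) * K * Y * G * (c * X₁) = (4 * A * Y * (c * X₁)) * (G * K) := by ring
    rw [h8, h9]
    exact mul_le_mul_of_nonneg_left hGK (by positivity)
  have hGg' : (G : ℝ) ≤ g := by exact_mod_cast hGg
  refine htot.trans (hfin.trans ?_)
  rw [e5]
  have h10 : (1 + D / G) ^ 2 ≤ (1 + 4 * A * K * Y / (c * X₁ * g)) ^ 2 :=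
    pow_le_pow_left₀ (by positivity) (by linarith) 2
  exact mul_le_mul (by linarith) h10 (by positivity) (by positivity)

theorem t_SL : Pool.Agent.W978.QO.S_SL := by
  intro A K c _ hK hc
  set m : ℝ := max 1 (4 * A * K / c) with hm
  have hm1 : 1 ≤ m := le_max_left _ _
  have hm2 : 4 * A * K / c ≤ m := le_max_right _ _
  refine ⟨2 * m ^ 2, by positivity, ?_⟩
  intro M X₁ X₂ Y g h1 _ hg hM hmn Q hQ hd
  have hX : (0 : ℝ) < X₁ := by exact_mod_cast h1
  have hg0 : (0 : ℝ) < g := by exact_mod_cast hg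
  refine (core A K c hK hc M X₁ X₂ Y g h1 hg hM hmn Q hQ hd).trans ?_
  have e1 : 4 * A * K * Y / (c * X₁ * g) = (4 * A * K / c) * (Y / (X₁ * g)) := by
    field_simp
  have hy : (0 : ℝ) ≤ Y / (X₁ * g) := by positivity
  have h2 : 1 + 4 * A * K * Y / (c * X₁ * g) ≤ m * (1 + Y / (X₁ * g)) := by
    rw [e1]
    have := mul_le_mul_of_nonneg_right hm2 hy
    linarith
  have h3 : (1 + 4 * A * K * Y / (c * X₁ * g)) ^ 2 ≤ (m * (1 + Y / (X₁ * g))) ^ 2 :=
    pow_le_pow_left₀ (by positivity) h2 2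
  have h4 : (2 * X₂ + g : ℝ) ≤ 2 * (X₂ + g) := by linarith
  calc (2 * X₂ + g : ℝ) * (1 + 4 * A * K * Y / (c * X₁ * g)) ^ 2
      ≤ (2 * (X₂ + g)) * (m * (1 + Y / (X₁ * g))) ^ 2 :=
        mul_le_mul h4 h3 (by positivity) (by positivity)
    _ = _ := by ring

end Pool.Agent.W490.QO
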